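import Pool.Agent.Helper31.BQ.Stmts

/-!
# Row UL: uniform limits of Baire-one maps are Baire-one
-/

set_option autoImplicit false

universe u

namespace Pool.Agent.Helper88.BQ

open Filter Topology Pool.Agent.Helper31.BQ

/-- the retraction to the ball of radius `r` -/
noncomputable def rt {E : Type*} [NormedAddCommGroup E] [NormedSpace ℝ E] (r : ℝ) (v : E) : E :=
  (r / max r ‖v‖) • v

theorem rt_cont {E : Type*} [NormedAddCommGroup E] [NormedSpace ℝ E] {r : ℝ} (hr : 0 < r) :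
    Continuous (rt r : E → E) := by
  unfold rt
  apply Continuous.smul _ continuous_id
  exact continuous_const.div (continuous_const.max continuous_norm)
    (fun v => (lt_max_of_lt_left hr).ne')

theorem rt_norm {E : Type*} [NormedAddCommGroup E] [NormedSpace ℝ E] {r : ℝ} (hr : 0 < r) (v : E) :
    ‖rt r v‖ ≤ r := by
  unfold rt
  have hm : 0 < max r ‖v‖ := lt_max_of_lt_left hr
  rw [norm_smul, Real.norm_eq_abs, abs_of_nonneg (div_nonneg hr.le hm.le), div_mul_eq_mul_div,
    div_le_iff₀ hm]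
  exact mul_le_mul_of_nonneg_left (le_max_right _ _) hr.le

theorem rt_eq {E : Type*} [NormedAddCommGroup E] [NormedSpace ℝ E] {r : ℝ} (hr : 0 < r) {v : E}
    (h : ‖v‖ ≤ r) : rt r v = v := by
  unfold rt
  rw [max_eq_left h, div_self hr.ne', one_smul]

theorem geo_Ico (m n : ℕ) (h : m ≤ n) :
    ∑ i ∈ Finset.Ico m n, ((1 : ℝ) / 2) ^ i ≤ 2 * (1 / 2) ^ m - 2 * (1 / 2) ^ n := by
  induction n, h using Nat.le_induction with
  | base => simp
  | succ n hmn ih =>
    rw [Finset.sum_Ico_succ_top hmn, pow_succ]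
    linarith

theorem st_UL : ST_UL.{u} := by
  intro X _ E _ _ f h
  have hpos : ∀ i : ℕ, (0 : ℝ) < (1 / 2) ^ (i + 1) := fun i => by positivity
  choose g hgB hgf using fun i : ℕ => h ((1 / 2) ^ (i + 1)) (hpos i)
  have hgB' : ∀ i, ∃ F : ℕ → X → E, (∀ n, Continuous (F n)) ∧
      ∀ x, Tendsto (fun n => F n x) atTop (𝓝 (g i x)) := fun i => hgB i
  choose G hGc hGt using hgB'
  have hr : ∀ i : ℕ, (0 : ℝ) < (1 / 2) ^ i := fun i => by positivity
  set D : ℕ → ℕ → X → E := fun i n x => rt ((1 / 2) ^ i) (G (i + 1) n x - G i n x) with hD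
  have hDc : ∀ i n, Continuous (D i n) := fun i n =>
    (rt_cont (hr i)).comp ((hGc (i + 1) n).sub (hGc i n))
  have hDn : ∀ i n x, ‖D i n x‖ ≤ (1 / 2) ^ i := fun i n x => rt_norm (hr i) _
  have hd : ∀ i x, ‖g (i + 1) x - g i x‖ ≤ (1 / 2) ^ i := by
    intro i x
    have h1 := hgf (i + 1) x
    have h2 := hgf i x
    calc ‖g (i + 1) x - g i x‖ = ‖(g (i + 1) x - f x) - (g i x - f x)‖ := by
          congr 1
          abel
      _ ≤ ‖g (i + 1) x - f x‖ + ‖g i x - f x‖ := norm_sub_le _ _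
      _ ≤ (1 / 2) ^ (i + 1 + 1) + (1 / 2) ^ (i + 1) := add_le_add h1 h2
      _ ≤ (1 / 2) ^ i := by
          rw [pow_succ, pow_succ]
          have := hr i
          linarith
  have hDt : ∀ i x, Tendsto (fun n => D i n x) atTop (𝓝 (g (i + 1) x - g i x)) := by
    intro i x
    have h1 : Tendsto (fun n => G (i + 1) n x - G i n x) atTop (𝓝 (g (i + 1) x - g i x)) :=
      (hGt (i + 1) x).sub (hGt i x)
    have h2 := ((rt_cont (E := E) (hr i)).tendsto (g (i + 1) x - g i x)).comp h1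
    rw [rt_eq (hr i) (hd i x)] at h2
    exact h2
  refine ⟨fun n x => G 0 n x + ∑ i ∈ Finset.range n, D i n x, ?_, ?_⟩
  · intro n
    exact (hGc 0 n).add (continuous_finsetSum _ (fun i _ => hDc i n))
  · intro x
    rw [Metric.tendsto_atTop]
    intro ε hε
    obtain ⟨m, hm⟩ := exists_pow_lt_of_lt_one (show (0 : ℝ) < ε / 5 by positivity)
      (show (1 / 2 : ℝ) < 1 by norm_num)
    have hA : Tendsto (fun n => G 0 n x + ∑ i ∈ Finset.range m, D i n x) atTop
        (𝓝 (g 0 x + ∑ i ∈ Finset.range m, (g (i + 1) x - g i x))) :=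
      (hGt 0 x).add (tendsto_finsetSum _ (fun i _ => hDt i x))
    rw [Finset.sum_range_sub (fun i => g i x) m, add_sub_cancel] at hA
    rw [Metric.tendsto_atTop] at hA
    obtain ⟨N, hN⟩ := hA (ε / 5) (by positivity)
    refine ⟨max N m, fun n hn => ?_⟩
    have hn1 : N ≤ n := (le_max_left _ _).trans hn
    have hn2 : m ≤ n := (le_max_right _ _).trans hn
    have h1 := hN n hn1
    rw [dist_eq_norm] at h1 ⊢
    have hsplit : ∑ i ∈ Finset.range n, D i n x =
        ∑ i ∈ Finset.range m, D i n x + ∑ i ∈ Finset.Ico m n, D i n x :=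
      (Finset.sum_range_add_sum_Ico _ hn2).symm
    have h2 : ‖∑ i ∈ Finset.Ico m n, D i n x‖ ≤ 2 * (1 / 2) ^ m := by
      calc ‖∑ i ∈ Finset.Ico m n, D i n x‖ ≤ ∑ i ∈ Finset.Ico m n, ‖D i n x‖ := norm_sum_le _ _
        _ ≤ ∑ i ∈ Finset.Ico m n, ((1 : ℝ) / 2) ^ i := Finset.sum_le_sum fun i _ => hDn i n x
        _ ≤ 2 * (1 / 2) ^ m - 2 * (1 / 2) ^ n := geo_Ico m n hn2
        _ ≤ 2 * (1 / 2) ^ m := by
            have := hr n
            linarith
    have h3 : ‖g m x - f x‖ ≤ (1 / 2) ^ m := by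
      refine (hgf m x).trans ?_
      rw [pow_succ]
      have := hr m
      linarith
    calc ‖(G 0 n x + ∑ i ∈ Finset.range n, D i n x) - f x‖
        = ‖((G 0 n x + ∑ i ∈ Finset.range m, D i n x) - g m x) +
            (∑ i ∈ Finset.Ico m n, D i n x) + (g m x - f x)‖ := by
          rw [hsplit]
          congr 1
          abel
      _ ≤ ‖(G 0 n x + ∑ i ∈ Finset.range m, D i n x) - g m x‖ +
            ‖∑ i ∈ Finset.Ico m n, D i n x‖ + ‖g m x - f x‖ := norm_add₃_le
      _ < ε := by linarith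

end Pool.Agent.Helper88.BQ
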