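import Pool.Agent.Helper31.BQ.Stmts3

/-!
# Row FN: `QP E` implies `AP E`
-/

set_option autoImplicit false

universe u

namespace Pool.Agent.Helper88.BQ

open Filter Topology Pool.Agent.Helper31.BQ

theorem st_FN (h1 : ST_GR.{u}) (h2 : ST_YB.{u}) (h3 : ST_GN2.{u}) : ST_FN.{u} := by
  intro E _ _ _ hQ
  apply h1 E
  intro x hx ε hε
  obtain ⟨Y, _, _, M, j, y, hYc, hM, hPP, hJC, hy, hjy, hVM⟩ := h2 E x hx
  obtain ⟨T, hT, hTj⟩ := h3 Y E M j hM hPP hJC hQ
  -- uniform boundedness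
  obtain ⟨C, hC⟩ : ∃ C : ℝ, ∀ i, ‖T i‖ ≤ C := by
    apply banach_steinhaus
    intro z
    obtain ⟨C, hC⟩ := (hTj z).norm.bddAbove_range
    exact ⟨C, fun i => hC (Set.mem_range_self i)⟩
  have hC0 : 0 ≤ C := (norm_nonneg _).trans (hC 0)
  have hB : 0 < C + ‖j‖ + 1 := by positivity
  -- the tail of the null sequence
  have hyn : ∀ᶠ n in atTop, ‖y n‖ < ε / (2 * (C + ‖j‖ + 1)) := by
    have h4 := hy.norm
    rw [norm_zero] at h4
    exact h4.eventually (gt_mem_nhds (by positivity))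
  obtain ⟨N, hN⟩ := eventually_atTop.1 hyn
  have hev : ∀ᶠ i in atTop, ∀ n ∈ Finset.range N, ‖T i (y n) - j (y n)‖ < ε / 2 := by
    rw [Filter.eventually_all_finset]
    intro n _
    have h4 := (hTj (y n)).sub_const (j (y n))
    rw [sub_self] at h4
    have h5 := h4.norm
    rw [norm_zero] at h5
    exact h5.eventually (gt_mem_nhds (by positivity))
  obtain ⟨i, hi⟩ := hev.exists
  have hall : ∀ n, ‖T i (y n) - j (y n)‖ ≤ ε / 2 := by
    intro n
    by_cases hn : n < N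
    · exact (hi n (Finset.mem_range.2 hn)).le
    · have h4 := (hN n (not_lt.1 hn)).le
      calc ‖T i (y n) - j (y n)‖ ≤ ‖T i (y n)‖ + ‖j (y n)‖ := norm_sub_le _ _
        _ ≤ C * ‖y n‖ + ‖j‖ * ‖y n‖ := add_le_add
            (((T i).le_opNorm _).trans (mul_le_mul_of_nonneg_right (hC i) (norm_nonneg _)))
            (j.le_opNorm _)
        _ = (C + ‖j‖) * ‖y n‖ := by ring
        _ ≤ (C + ‖j‖ + 1) * (ε / (2 * (C + ‖j‖ + 1))) :=
            mul_le_mul (by linarith) h4 (norm_nonneg _) hB.le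
        _ = ε / 2 := by field_simp
  -- an operator in `VM` near `T i`
  obtain ⟨Yb, hYb⟩ : ∃ B : ℝ, ∀ n, ‖y n‖ ≤ B := by
    obtain ⟨B, hB'⟩ := hy.norm.bddAbove_range
    exact ⟨B, fun n => hB' (Set.mem_range_self n)⟩
  have hYb0 : 0 ≤ Yb := (norm_nonneg _).trans (hYb 0)
  have hδ : 0 < ε / (2 * (Yb + 1)) := by positivity
  obtain ⟨S, hS, hSd⟩ := Metric.mem_closure_iff.1 (hT i) _ hδ
  rw [dist_eq_norm] at hSd
  obtain ⟨T', hT', hT'S⟩ := hVM S hS
  refine ⟨T', hT', fun n => ?_⟩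
  have e1 : T' (x n) = S (y n) := by rw [hT'S, hjy]
  have e2 : x n = j (y n) := (hjy n).symm
  rw [e1]
  calc ‖S (y n) - x n‖ = ‖(T i (y n) - j (y n)) - (T i - S) (y n)‖ := by
        rw [e2]
        congr 1
        rw [ContinuousLinearMap.sub_apply]
        abel
    _ ≤ ‖T i (y n) - j (y n)‖ + ‖(T i - S) (y n)‖ := norm_sub_le _ _
    _ ≤ ε / 2 + ε / (2 * (Yb + 1)) * Yb := by
        refine add_le_add (hall n) (((T i - S).le_opNorm _).trans ?_)
        exact mul_le_mul hSd.le (hYb n) (norm_nonneg _) hδ.le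
    _ ≤ ε := by
        have h6 : ε / (2 * (Yb + 1)) * Yb ≤ ε / 2 := by
          rw [div_mul_eq_mul_div, div_le_div_iff₀ (by positivity) (by norm_num)]
          nlinarith
        linarith

end Pool.Agent.Helper88.BQ
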